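import Pool.Agent.N139.AS.Stm2

/-!
# AS/NOTH (helper139): the amalgam is not stable, unitary matrices
-/

set_option autoImplicit false

namespace Pool.Agent.N664.AS

open Filter Topology Matrix
open Pool.Agent.H698R3 Pool.Agent.H698R3.Amalg Pool.Agent.H698R4 Pool.Agent.N139.AS

theorem exists_hom_ne' {𝒞 : Cls} {O : Ops 𝒞} {G : Type} [Group G] (h : Flex O G) (k : ℕ → ℕ)
    (φ : ∀ n, G → 𝒞.C (k n))
    (hφ : ∀ a b : G, Tendsto (fun n => 𝒞.d (k n) (φ n a * φ n b) (φ n (a * b))) atTop (𝓝 0))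
    (g : G) (c : ℝ) (hc : 0 < c) (hcn : ∀ᶠ n in atTop, c ≤ 𝒞.d (k n) (φ n g) 1) :
    ∃ (m : ℕ) (ψ : G →* 𝒞.C m), ψ g ≠ 1 := by
  obtain ⟨m, hkm, ψ, hb, hψ⟩ := h k φ hφ
  have e1 := hb 1 one_pos
  have e2 := (hψ g).eventually (gt_mem_nhds (half_pos hc))
  obtain ⟨n, g1, g2, g3⟩ := (e1.and (e2.and hcn)).exists
  refine ⟨m n, ψ n, fun h1 => ?_⟩
  have h2 : m n ≤ 2 * k n := by
    have : (m n : ℝ) ≤ ((2 * k n : ℕ) : ℝ) := by push_cast; linarith
    exact_mod_cast this
  have h3 := O.ex_d' (hkm n) h2 (φ n g) 1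
  rw [map_one] at h3
  rw [h1] at g2
  linarith

section perm

variable {X : Type} [Fintype X] [DecidableEq X]

theorem fro_perm (σ : Equiv.Perm X) :
    fro (Jm (σ : X → X) - 1) = 2 * ct (fun x => σ x ≠ x) := by
  classical
  unfold fro ct
  rw [Finset.sum_comm, Finset.card_filter]
  push_cast
  rw [Finset.mul_sum]
  refine Finset.sum_congr rfl fun y _ => ?_
  by_cases h : σ y = y
  · rw [if_neg (by simpa using h), mul_zero]
    refine Finset.sum_eq_zero fun x _ => ?_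
    rw [Matrix.sub_apply, Jm_apply, Matrix.one_apply, h, sub_self]
    simp
  · rw [if_pos h, mul_one]
    have e : ∀ x, ‖(Jm (σ : X → X) - 1 : Matrix X X ℂ) x y‖ ^ 2 =
        (if x = σ y then (1 : ℝ) else 0) + (if x = y then (1 : ℝ) else 0) := by
      intro x
      rw [Matrix.sub_apply, Jm_apply, Matrix.one_apply]
      by_cases h1 : x = σ y
      · have h2 : x ≠ y := fun h3 => h (by rw [← h1, h3])
        rw [if_pos h1, if_neg h2, if_pos h1, if_neg h2]
        simp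
      · rw [if_neg h1, if_neg h1]
        by_cases h2 : x = y
        · rw [if_pos h2, if_pos h2]; simp
        · rw [if_neg h2, if_neg h2]; simp
    rw [Finset.sum_congr rfl fun x _ => e x, Finset.sum_add_distrib]
    simp
    norm_num

theorem hsDist_perm (σ : Equiv.Perm X) :
    hsDist (permU σ).1 1 = Real.sqrt (2 * ct (fun x => σ x ≠ x) / Fintype.card X) := by
  rw [hsDist_eq, permU_coe, Real.sqrt_div' _ (Nat.cast_nonneg _)]
  unfold fn
  rw [fro_perm]

theorem ct_nonneg {Y : Type} [Fintype Y] (P : Y → Prop) : 0 ≤ ct P := by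
  unfold ct; positivity

theorem ct_mono {Y : Type} [Fintype Y] {P Q : Y → Prop} (h : ∀ y, P y → Q y) : ct P ≤ ct Q := by
  classical
  unfold ct
  exact_mod_cast Finset.card_le_card (fun y hy => by
    simp only [Finset.mem_filter, Finset.mem_univ, true_and] at hy ⊢
    exact h y hy)

theorem ct_compl {Y : Type} [Fintype Y] (P : Y → Prop) :
    ct P + ct (fun y => ¬ P y) = Fintype.card Y := by
  classical
  have h1 : (Finset.univ.filter P).card + (Finset.univ.filter fun y => ¬ P y).card =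
      Fintype.card Y := by
    rw [← Finset.card_univ]
    exact Finset.card_filter_add_card_filter_not P
  have h2 : ct P = ((Finset.univ.filter P).card : ℝ) := by
    unfold ct; congr
  have h3 : ct (fun y => ¬ P y) = ((Finset.univ.filter fun y => ¬ P y).card : ℝ) := by
    unfold ct; congr
  rw [h2, h3]
  exact_mod_cast h1

end perm

section main

variable {G₁ G₂ H : Type} [Group G₁] [Group G₂] [Group H] (f₁ : H →* G₁) (f₂ : H →* G₂)

/-- the relators -/
abbrev Rel : Subgroup (Monoid.Coprod G₁ G₂) := Subgroup.normalClosure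
    (Set.range (fun h : H => (Monoid.Coprod.inl (f₁ h) : Monoid.Coprod G₁ G₂) *
      (Monoid.Coprod.inr (f₂ h))⁻¹))

/-- the projection -/
abbrev pr : Monoid.Coprod G₁ G₂ →* AmalgProd f₁ f₂ := QuotientGroup.mk' (Rel f₁ f₂)

theorem pr_rel (h : H) : pr f₁ f₂ (Monoid.Coprod.inl (f₁ h)) = pr f₁ f₂ (Monoid.Coprod.inr (f₂ h)) := by
  have h1 : (Monoid.Coprod.inl (f₁ h) : Monoid.Coprod G₁ G₂) *
    (Monoid.Coprod.inr (f₂ h))⁻¹ ∈ Rel f₁ f₂ := Subgroup.subset_normalClosure ⟨h, rfl⟩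
  have h2 : pr f₁ f₂ ((Monoid.Coprod.inl (f₁ h) : Monoid.Coprod G₁ G₂) *
    (Monoid.Coprod.inr (f₂ h))⁻¹) = 1 := (QuotientGroup.eq_one_iff _).mpr h1
  rw [map_mul, map_inv] at h2
  exact mul_inv_eq_one.mp h2

theorem exists_gen (h1 : Group.FG G₁) (h2 : Group.FG G₂) :
    ∃ (S : Set (AmalgProd f₁ f₂)), S.Finite ∧ Subgroup.closure S = ⊤ := by
  obtain ⟨S₁, hS₁, hf₁⟩ := Group.fg_iff.1 h1
  obtain ⟨S₂, hS₂, hf₂⟩ := Group.fg_iff.1 h2
  refine ⟨(pr f₁ f₂) '' ((Monoid.Coprod.inl '' S₁) ∪ (Monoid.Coprod.inr '' S₂)),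
    ((hf₁.image _).union (hf₂.image _)).image _, ?_⟩
  rw [← MonoidHom.map_closure]
  have key : Subgroup.closure ((Monoid.Coprod.inl '' S₁) ∪ (Monoid.Coprod.inr '' S₂) :
      Set (Monoid.Coprod G₁ G₂)) = ⊤ := by
    rw [eq_top_iff]
    intro w _
    have a1 : ∀ g : G₁, (Monoid.Coprod.inl g : Monoid.Coprod G₁ G₂) ∈
        Subgroup.closure ((Monoid.Coprod.inl '' S₁) ∪ (Monoid.Coprod.inr '' S₂) :
          Set (Monoid.Coprod G₁ G₂)) := by
      intro g
      have hg : g ∈ Subgroup.closure S₁ := by rw [hS₁]; trivial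
      have h3 : Monoid.Coprod.inl g ∈ (Subgroup.closure S₁).map
        (Monoid.Coprod.inl : G₁ →* Monoid.Coprod G₁ G₂) := ⟨g, hg, rfl⟩
      rw [MonoidHom.map_closure] at h3
      exact Subgroup.closure_mono Set.subset_union_left h3
    have a2 : ∀ g : G₂, (Monoid.Coprod.inr g : Monoid.Coprod G₁ G₂) ∈
        Subgroup.closure ((Monoid.Coprod.inl '' S₁) ∪ (Monoid.Coprod.inr '' S₂) :
          Set (Monoid.Coprod G₁ G₂)) := by
      intro g
      have hg : g ∈ Subgroup.closure S₂ := by rw [hS₂]; trivial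
      have h3 : Monoid.Coprod.inr g ∈ (Subgroup.closure S₂).map
        (Monoid.Coprod.inr : G₂ →* Monoid.Coprod G₁ G₂) := ⟨g, hg, rfl⟩
      rw [MonoidHom.map_closure] at h3
      exact Subgroup.closure_mono Set.subset_union_right h3
    induction w using Monoid.Coprod.induction_on with
    | inl g => exact a1 g
    | inr g => exact a2 g
    | mul x y hx hy => exact Subgroup.mul_mem _ (hx trivial) (hy trivial)
  rw [key, ← MonoidHom.range_eq_map]
  exact MonoidHom.range_eq_top.2 (QuotientGroup.mk'_surjective _)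

theorem killed_z (h0 : H) (u : G₂)
    (hq₁ : ∀ (Q : Type) [Group Q] [Finite Q] (ρ : G₁ →* Q) (g : G₁), ρ g = 1)
    (hq₂ : ∀ (Q : Type) [Group Q] [Finite Q] (ρ : G₂ →* Q), ρ (f₂ h0) = 1 → ρ u = 1) :
    Killed (pr f₁ f₂ (Monoid.Coprod.inr u)) := by
  intro Q _ _ q
  have h1 := hq₁ Q (q.comp ((pr f₁ f₂).comp Monoid.Coprod.inl)) (f₁ h0)
  have h2 := hq₂ Q (q.comp ((pr f₁ f₂).comp Monoid.Coprod.inr)) (by
    show q (pr f₁ f₂ (Monoid.Coprod.inr (f₂ h0))) = 1
    rw [← pr_rel]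
    exact h1)
  exact h2

theorem not_flex (h0 : H) (u : G₂) (hfg₁ : Group.FG G₁) (hfg₂ : Group.FG G₂)
    (hcyc : ∀ x : H, x ∈ Subgroup.zpowers h0)
    (hq₁ : ∀ (Q : Type) [Group Q] [Finite Q] (ρ : G₁ →* Q) (g : G₁), ρ g = 1)
    (hq₂ : ∀ (Q : Type) [Group Q] [Finite Q] (ρ : G₂ →* Q), ρ (f₂ h0) = 1 → ρ u = 1)
    (hX : ∀ L : ℕ, 2 ≤ L → ∃ (X : Type) (_ : Fintype X) (_ : Nonempty X) (ψ : G₂ →* Equiv.Perm X),
      L * ct (fun x => ψ (f₂ h0) x ≠ x) ≤ Fintype.card X ∧
      L * ct (fun x => ψ u x = x) ≤ Fintype.card X) :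
    ¬ Flex opsH (AmalgProd f₁ f₂) := by
  classical
  intro hflex
  have hX' : ∀ n : ℕ, ∃ (X : Type) (_ : Fintype X) (_ : Nonempty X) (ψ : G₂ →* Equiv.Perm X),
      ((n + 2 : ℕ) : ℝ) * ct (fun x => ψ (f₂ h0) x ≠ x) ≤ Fintype.card X ∧
      ((n + 2 : ℕ) : ℝ) * ct (fun x => ψ u x = x) ≤ Fintype.card X := fun n => hX (n + 2) (by omega)
  choose X iF iN ψ hψ1 hψ2 using hX'
  let k : ℕ → ℕ := fun n => Fintype.card (X n)
  let F : ∀ n, Monoid.Coprod G₁ G₂ →* Equiv.Perm (X n) := fun n => Monoid.Coprod.lift 1 (ψ n)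
  let Θ : ∀ n, Monoid.Coprod G₁ G₂ →* Matrix.unitaryGroup (Fin (k n)) ℂ := fun n =>
    trR (Fintype.equivFin (X n)) (permU.comp (F n))
  have hm := hsCls_metric
  let D : ∀ n, Monoid.Coprod G₁ G₂ → Monoid.Coprod G₁ G₂ → ℝ := fun n a b =>
    hsCls.d (k n) (Θ n a) (Θ n b)
  have hD1 : ∀ n a, D n a 1 =
      Real.sqrt (2 * ct (fun x => F n a x ≠ x) / Fintype.card (X n)) := by
    intro n a
    rw [← hsDist_perm]
    show hsDist (Θ n a).1 (Θ n 1).1 = _
    rw [map_one]
    show hsDist ((permU (F n a)).1.submatrix (Fintype.equivFin (X n)).symm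
      (Fintype.equivFin (X n)).symm) 1 = _
    rw [← hsDist_submatrix (Fintype.equivFin (X n)).symm (permU (F n a)).1 1,
      Matrix.submatrix_one_equiv]
  have hDl : ∀ n a b c, D n (a * b) (a * c) = D n b c := by
    intro n a b c
    show hsCls.d (k n) (Θ n (a * b)) (Θ n (a * c)) = _
    rw [map_mul, map_mul]
    exact hm.left (k n) (Θ n a) (Θ n b) (Θ n c)
  have hDr : ∀ n a b c, D n (b * a) (c * a) = D n b c := by
    intro n a b c
    show hsCls.d (k n) (Θ n (b * a)) (Θ n (c * a)) = _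
    rw [map_mul, map_mul]
    exact hm.right (k n) (Θ n a) (Θ n b) (Θ n c)
  have hDt : ∀ n a b c, D n a c ≤ D n a b + D n b c := fun n a b c => hm.tri (k n) _ _ _
  have hDs : ∀ n a b, D n a b = D n b a := fun n a b => hm.symm (k n) _ _
  have hD0 : ∀ n a, D n a a = 0 := fun n a => hm.self (k n) _
  have hDn : ∀ n a b, 0 ≤ D n a b := fun n a b => hm.nonneg (k n) _ _
  -- the subgroup of the asymptotically trivial elements
  let T : Subgroup (Monoid.Coprod G₁ G₂) :=
    { carrier := {a | Tendsto (fun n => D n a 1) atTop (𝓝 0)}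
      mul_mem' := by
        intro a b ha hb
        refine squeeze_zero (fun n => hDn n _ _) (fun n => ?_)
          (by have := ha.add hb; rwa [add_zero] at this)
        have h1 := hDt n (a * b) b 1
        have h2 := hDr n b a 1
        rw [one_mul] at h2
        rwa [h2] at h1
      one_mem' := by
        refine tendsto_const_nhds.congr fun n => ?_
        exact (hD0 n 1).symm
      inv_mem' := by
        intro a ha
        refine ha.congr fun n => ?_
        have h1 := hDl n a⁻¹ a 1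
        rw [inv_mul_cancel, mul_one] at h1
        rw [← h1, hDs] }
  have hTn : T.Normal := by
    refine ⟨fun a ha g => ?_⟩
    refine Tendsto.congr (fun n => ?_) ha
    have h1 := hDr n g⁻¹ (g * a) g
    have h2 := hDl n g a 1
    rw [mul_inv_cancel] at h1
    rw [mul_one] at h2
    rw [h1, h2]
  have hinv : Tendsto (fun n : ℕ => Real.sqrt (2 / ((n : ℝ) + 2))) atTop (𝓝 0) := by
    have h1 : Tendsto (fun n : ℕ => 2 / ((n : ℝ) + 2)) atTop (𝓝 0) := by
      have h2 := (tendsto_natCast_atTop_atTop (R := ℝ)).atTop_add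
        (tendsto_const_nhds (x := (2 : ℝ)))
      exact h2.const_div_atTop 2
    have h3 := h1.sqrt
    rwa [Real.sqrt_zero] at h3
  have hcard : ∀ n, (0 : ℝ) < Fintype.card (X n) := fun n => by
    have := iN n
    exact_mod_cast Fintype.card_pos
  have hN : Rel f₁ f₂ ≤ T := by
    refine Subgroup.normalClosure_le_normal ?_
    rintro _ ⟨h, rfl⟩
    show Tendsto (fun n => D n _ 1) atTop (𝓝 0)
    refine squeeze_zero (fun n => hDn n _ _) (fun n => ?_) hinv
    rw [hD1]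
    apply Real.sqrt_le_sqrt
    rw [div_le_div_iff₀ (hcard n) (by positivity)]
    have h1 : ct (fun x => F n (Monoid.Coprod.inl (f₁ h) * (Monoid.Coprod.inr (f₂ h))⁻¹) x ≠ x) ≤
        ct (fun x => ψ n (f₂ h0) x ≠ x) := by
      refine ct_mono fun x hx hx0 => hx ?_
      obtain ⟨j, rfl⟩ := Subgroup.mem_zpowers_iff.1 (hcyc h)
      have e1 : F n (Monoid.Coprod.inl (f₁ (h0 ^ j)) * (Monoid.Coprod.inr (f₂ (h0 ^ j)))⁻¹) =
          (ψ n (f₂ h0)) ^ (-j) := by
        show Monoid.Coprod.lift 1 (ψ n) _ = _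
        rw [map_mul, map_inv, Monoid.Coprod.lift_apply_inl, Monoid.Coprod.lift_apply_inr,
          MonoidHom.one_apply, one_mul, map_zpow, map_zpow, _root_.zpow_neg]
      rw [e1]
      exact Equiv.Perm.zpow_apply_eq_self_of_apply_eq_self hx0 (-j)
    have h2 := hψ1 n
    push_cast at h2
    have h3 := mul_le_mul_of_nonneg_right h1 (by positivity : (0 : ℝ) ≤ (n : ℝ) + 2)
    linarith
  -- the asymptotic homomorphism
  let sec : AmalgProd f₁ f₂ → Monoid.Coprod G₁ G₂ :=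
    Function.surjInv (QuotientGroup.mk'_surjective (Rel f₁ f₂))
  have hsec : ∀ g, pr f₁ f₂ (sec g) = g :=
    Function.surjInv_eq (QuotientGroup.mk'_surjective (Rel f₁ f₂))
  have hdiff : ∀ a b : Monoid.Coprod G₁ G₂, pr f₁ f₂ a = pr f₁ f₂ b →
      Tendsto (fun n => D n a b) atTop (𝓝 0) := by
    intro a b hab
    have h1 : b⁻¹ * a ∈ Rel f₁ f₂ := by
      rw [← QuotientGroup.eq_one_iff]
      show pr f₁ f₂ (b⁻¹ * a) = 1
      rw [map_mul, map_inv, hab, inv_mul_cancel]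
    refine Tendsto.congr (fun n => ?_) (hN h1)
    have h2 := hDl n b (b⁻¹ * a) 1
    rw [mul_inv_cancel_left, mul_one] at h2
    exact h2.symm
  obtain ⟨m, φ, hφ⟩ := exists_hom_ne' hflex k (fun n g => Θ n (sec g)) (fun a b => by
      refine (hdiff (sec a * sec b) (sec (a * b)) (by rw [map_mul, hsec, hsec, hsec])).congr
        fun n => ?_
      show hsCls.d (k n) (Θ n (sec a * sec b)) _ = _
      rw [map_mul]
      rfl) (pr f₁ f₂ (Monoid.Coprod.inr u)) (1 / 2) (by norm_num) (by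
      have h1 := hdiff (Monoid.Coprod.inr u) (sec (pr f₁ f₂ (Monoid.Coprod.inr u)))
        (by rw [hsec])
      have h2 := h1.eventually (gt_mem_nhds (show (0 : ℝ) < 1 / 2 by norm_num))
      filter_upwards [h2] with n hn
      have h3 : 1 ≤ D n (Monoid.Coprod.inr u) 1 := by
        rw [hD1, Real.one_le_sqrt, one_le_div (hcard n)]
        have e1 : F n (Monoid.Coprod.inr u) = ψ n u := Monoid.Coprod.lift_apply_inr _ _ _
        rw [e1]
        have e2 := ct_compl (fun x => ψ n u x = x)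
        have e3 := hψ2 n
        push_cast at e3
        have e4 := ct_nonneg (fun x => ψ n u x = x)
        have e5 : 0 ≤ (n : ℝ) * ct (fun x => ψ n u x = x) := by positivity
        show (Fintype.card (X n) : ℝ) ≤ 2 * ct (fun x => ¬ ψ n u x = x)
        nlinarith
      have h4 := hDt n (Monoid.Coprod.inr u) (sec (pr f₁ f₂ (Monoid.Coprod.inr u))) 1
      have h5 : D n (sec (pr f₁ f₂ (Monoid.Coprod.inr u))) 1 =
          hsCls.d (k n) (Θ n (sec (pr f₁ f₂ (Monoid.Coprod.inr u)))) 1 := by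
        show hsCls.d (k n) _ (Θ n 1) = _
        rw [map_one]
        rfl
      rw [← h5]
      linarith)
  -- contradiction
  obtain ⟨S, hSf, hS⟩ := exists_gen f₁ f₂ hfg₁ hfg₂
  have : Finite S := hSf
  refine hφ (killed_lin ((↑) : S → AmalgProd f₁ f₂) (by rw [Subtype.range_coe]; exact hS) m φ _
    (killed_z f₁ f₂ h0 u hq₁ hq₂))

end main

/-- NOTH -/
theorem t_NOTH : Pool.Agent.N139.AS.S_NOTH := by
  intro G₁ G₂ H _ _ _ _ f₁ f₂ h0 u hfg₁ hfg₂ hcyc hq₁ hq₂ hX
  have hnf := not_flex f₁ f₂ h0 u hfg₁ hfg₂ hcyc hq₁ hq₂ hX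
  refine ⟨fun h => hnf (flex_of_stable ((hsStable_iff _).mp h)), fun r s hs h => hnf ?_⟩
  exact flex_of_wrt hsCls_metric s (lift_surj s hs) (flexWrt_of_hs s h)

end Pool.Agent.N664.AS
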